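import Pool.Agent.Lib.MP_ef3f0f_gt.U.Defs

set_option autoImplicit false

/-!
# MP_ef3f0f_gt, Theorem U, Part C (kernel calculus): definitions and statements

`ck μ k₁ k₂ g = k₁ * δ_g * k₂` on the group `P` (no lattice, no `H`). Modules `U/C/X.lean`:
`theorem tX : S_X P`, in a section with the same `variable` line (explicit `P`), namespace
`Pool.Agent.MPEF.U`.
-/

namespace Pool.Agent.MPEF.U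

open MeasureTheory Topology
open scoped ENNReal Pointwise

/-- The kernel `k₁ * δ_g * k₂`. -/
noncomputable def ck {P : Type} [Group P] [MeasurableSpace P] (μ : Measure P)
    (k₁ k₂ : P → ℝ≥0∞) (g : P) : P → ℝ≥0∞ :=
  fun s => ∫⁻ q, k₁ q * k₂ (g⁻¹ * q⁻¹ * s) ∂μ

/-- Convolution. -/
noncomputable def cv {P : Type} [Group P] [MeasurableSpace P] (μ : Measure P)
    (k k' : P → ℝ≥0∞) : P → ℝ≥0∞ :=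
  fun s => ∫⁻ q, k q * k' (q⁻¹ * s) ∂μ

/-- Haar measures which are left, right and inversion invariant. -/
structure Un {P : Type} [Group P] [TopologicalSpace P] [MeasurableSpace P] (μ : Measure P) :
    Prop where
  haar : μ.IsHaarMeasure
  right : μ.IsMulRightInvariant
  inv : μ.IsInvInvariant

variable (P : Type) [Group P] [TopologicalSpace P] [IsTopologicalGroup P]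
  [LocallyCompactSpace P] [T2Space P] [SecondCountableTopology P] [MeasurableSpace P]
  [BorelSpace P]

/-- Algebra of the kernels. Proof. All by Tonelli and invariance of `μ`. (6) `ck k₁ k₂ g s⁻¹ = ∫ k₁(q) k₂(g⁻¹ q⁻¹ s⁻¹) dq`, put `q = s⁻¹ p g⁻¹`.
(7) `q ↦ h q`. (9) `q ↦ q h₁⁻¹`: `∫ k₁(q) k₂(h₂⁻¹ g⁻¹ h₁⁻¹ q⁻¹ s) dq = ∫ k₁(p h₁⁻¹) k₂(h₂⁻¹ g⁻¹ p⁻¹ s) dp`. (10) `(k₁ * δ_g * k₂) * (k₃ * δ_g' * k₄) =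
k₁ * δ_g * (k₂ * k₃) * δ_g' * k₄`: write the left side as `∫_p ∫_q k₁(p) k₂(g⁻¹ p⁻¹ q) ∫_r k₃(r) k₄(g'⁻¹ r⁻¹ q⁻¹ s)`; put `q = p g t`:
`∫_p k₁(p) ∫_t k₂(t) ∫_r k₃(r) k₄(g'⁻¹ r⁻¹ t⁻¹ g⁻¹ p⁻¹ s)`, then `r = t⁻¹ q`. -/
def S_ck : Prop :=
  ∀ μ : Measure P, Un μ →
    (∀ k₁ k₂ : P → ℝ≥0∞, Measurable k₁ → Measurable k₂ → ∀ g, Measurable (ck μ k₁ k₂ g)) ∧
    (∀ k₁ k₂ k₁' k₂' : P → ℝ≥0∞, (∀ q, k₁ q ≤ k₁' q) → (∀ q, k₂ q ≤ k₂' q) →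
      ∀ g s, ck μ k₁ k₂ g s ≤ ck μ k₁' k₂' g s) ∧
    (∀ k₁ k₂ : P → ℝ≥0∞, Measurable k₁ → Measurable k₂ → ∀ g,
      ∫⁻ s, ck μ k₁ k₂ g s ∂μ = (∫⁻ s, k₁ s ∂μ) * ∫⁻ s, k₂ s ∂μ) ∧
    (∀ (k₁ k₂ : P → ℝ≥0∞) (g s), ck μ k₁ k₂ g s ≠ 0 →
      ∃ p r, k₁ p ≠ 0 ∧ k₂ r ≠ 0 ∧ s = p * g * r) ∧
    (∀ (k₁ k₂ : P → ℝ≥0∞) (C : ℝ≥0∞), Measurable k₁ → (∀ q, k₂ q ≤ C) → ∀ g s,
      ck μ k₁ k₂ g s ≤ (∫⁻ q, k₁ q ∂μ) * C) ∧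
    (∀ k₁ k₂ : P → ℝ≥0∞, Measurable k₁ → Measurable k₂ → ∀ g s,
      ck μ k₁ k₂ g s⁻¹ = ck μ (fun q => k₂ q⁻¹) (fun q => k₁ q⁻¹) g⁻¹ s) ∧
    (∀ k₁ k₂ : P → ℝ≥0∞, Measurable k₁ → Measurable k₂ → ∀ g h s,
      ck μ k₁ k₂ g (h * s) = ck μ (fun q => k₁ (h * q)) k₂ g s) ∧
    (∀ (k₁ k₂ : P → ℝ≥0∞) (g h s : P),
      ck μ k₁ k₂ g (s * h) = ck μ k₁ (fun q => k₂ (q * h)) g s) ∧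
    (∀ k₁ k₂ : P → ℝ≥0∞, Measurable k₁ → Measurable k₂ → ∀ g h₁ h₂ s,
      ck μ k₁ k₂ (h₁ * g * h₂) s =
        ck μ (fun q => k₁ (q * h₁⁻¹)) (fun q => k₂ (h₂⁻¹ * q)) g s) ∧
    (∀ k₁ k₂ k₃ k₄ : P → ℝ≥0∞, Measurable k₁ → Measurable k₂ → Measurable k₃ →
      Measurable k₄ → ∀ g g' s, cv μ (ck μ k₁ k₂ g) (ck μ k₃ k₄ g') s =
        ∫⁻ q, cv μ k₂ k₃ q * ck μ k₁ k₄ (g * q * g') s ∂μ) ∧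
    (∀ k₁ k₂ : P → ℝ≥0∞, Measurable k₁ → Measurable k₂ →
      ∫⁻ s, cv μ k₁ k₂ s ∂μ = (∫⁻ s, k₁ s ∂μ) * ∫⁻ s, k₂ s ∂μ) ∧
    (∀ (k₁ k₂ : P → ℝ≥0∞) (s), cv μ k₁ k₂ s ≠ 0 → ∃ p r, k₁ p ≠ 0 ∧ k₂ r ≠ 0 ∧ s = p * r) ∧
    (∀ k₁ k₂ : P → ℝ≥0∞, Measurable k₁ → Measurable k₂ → Measurable (cv μ k₁ k₂))

/-- Merging, upper bound. Proof. `S_ck` (10), (9), (2): for `q` with `cv k₂ k₃ q ≠ 0`, `q = p r`: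
`ck k₁ k₄ (g q g') s = ck (k₁(· h₁⁻¹)) (k₄(h₂⁻¹ ·)) g'' s ≤ ck κ₁ κ₄ g'' s`; then `∫ cv k₂ k₃ = ∫ k₂ ∫ k₃`. -/
def S_ckU : Prop :=
  ∀ μ : Measure P, Un μ → ∀ k₁ k₂ k₃ k₄ κ₁ κ₄ : P → ℝ≥0∞, Measurable k₁ → Measurable k₂ →
    Measurable k₃ → Measurable k₄ → ∀ g g' g'' : P,
    (∀ p r, k₂ p ≠ 0 → k₃ r ≠ 0 → ∃ h₁ h₂ : P, g * (p * r) * g' = h₁ * g'' * h₂ ∧
      (∀ q, k₁ (q * h₁⁻¹) ≤ κ₁ q) ∧ ∀ q, k₄ (h₂⁻¹ * q) ≤ κ₄ q) →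
    ∀ s, cv μ (ck μ k₁ k₂ g) (ck μ k₃ k₄ g') s ≤
      (∫⁻ q, k₂ q ∂μ) * (∫⁻ q, k₃ q ∂μ) * ck μ κ₁ κ₄ g'' s

/-- Merging, lower bound. Proof. By `S_ck` (10), (9), for `q ∈ Q`: `ck k₁ k₄ (g q g') s = ∫ k₁(p h₁⁻¹) k₄(h₂⁻¹ g''⁻¹ p⁻¹ s) dp ≥
∫ 1_W(p, q) κ₁(p) κ₄(g''⁻¹ p⁻¹ s) dp`. So the right side is at least `∫_{q ∈ Q} c ∫_p 1_W(p,q) κ₁(p) κ₄(g''⁻¹ p⁻¹ s)`; Tonelli (all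
measurable), and `∫_q 1_Q(q) 1_W(p,q) ≥ c'` for `κ₁ p ≠ 0`. -/
def S_ckL : Prop :=
  ∀ μ : Measure P, Un μ → ∀ k₁ k₂ k₃ k₄ κ₁ κ₄ : P → ℝ≥0∞, Measurable k₁ → Measurable k₂ →
    Measurable k₃ → Measurable k₄ → Measurable κ₁ → Measurable κ₄ → ∀ g g' g'' : P,
    ∀ (Q : Set P) (W : Set (P × P)) (c c' : ℝ≥0∞), MeasurableSet Q → MeasurableSet W →
    (∀ q ∈ Q, c ≤ cv μ k₂ k₃ q) → (∀ p, κ₁ p ≠ 0 → c' ≤ μ {q | q ∈ Q ∧ (p, q) ∈ W}) →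
    (∀ q ∈ Q, ∃ h₁ h₂ : P, g * q * g' = h₁ * g'' * h₂ ∧
      (∀ p, (p, q) ∈ W → κ₁ p ≤ k₁ (p * h₁⁻¹)) ∧ ∀ r, κ₄ r ≤ k₄ (h₂⁻¹ * r)) →
    ∀ s, c * c' * ck μ κ₁ κ₄ g'' s ≤ cv μ (ck μ k₁ k₂ g) (ck μ k₃ k₄ g') s

end Pool.Agent.MPEF.U
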