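import Pool.Agent.Lib.MP_ef3f0f_gt.U.Ck.Spec

set_option autoImplicit false

namespace Pool.Agent.MPEF.U

open MeasureTheory Topology
open scoped ENNReal Pointwise

section

variable (P : Type) [Group P] [TopologicalSpace P] [IsTopologicalGroup P]
  [LocallyCompactSpace P] [T2Space P] [SecondCountableTopology P] [MeasurableSpace P]
  [BorelSpace P]

omit [TopologicalSpace P] [IsTopologicalGroup P] [LocallyCompactSpace P] [T2Space P]
  [SecondCountableTopology P] [BorelSpace P] in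
private theorem ck_cv (μ : Measure P) (k k' : P → ℝ≥0∞) : cv μ k k' = ck μ k k' 1 := by
  funext s
  unfold cv ck
  simp only [inv_one, one_mul]

omit [T2Space P] in
private theorem ck_meas (μ : Measure P) (hμ : Un μ) (k₁ k₂ : P → ℝ≥0∞) (h1 : Measurable k₁)
    (h2 : Measurable k₂) (g : P) : Measurable (ck μ k₁ k₂ g) := by
  have := hμ.haar
  unfold ck
  refine Measurable.lintegral_prod_right' (f := fun z : P × P => k₁ z.2 * k₂ (g⁻¹ * z.2⁻¹ * z.1)) ?_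
  exact (h1.comp measurable_snd).mul
    (h2.comp ((measurable_const.mul measurable_snd.inv).mul measurable_fst))

omit [T2Space P] in
private theorem ck_int (μ : Measure P) (hμ : Un μ) (k₁ k₂ : P → ℝ≥0∞) (h1 : Measurable k₁)
    (h2 : Measurable k₂) (g : P) :
    ∫⁻ s, ck μ k₁ k₂ g s ∂μ = (∫⁻ s, k₁ s ∂μ) * ∫⁻ s, k₂ s ∂μ := by
  have := hμ.haar
  unfold ck
  rw [lintegral_lintegral_swap]
  · have h3 : ∀ q : P, ∫⁻ s, k₁ q * k₂ (g⁻¹ * q⁻¹ * s) ∂μ = k₁ q * ∫⁻ s, k₂ s ∂μ := by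
      intro q
      have h4 : Measurable (fun s : P => k₂ (g⁻¹ * q⁻¹ * s)) :=
        h2.comp (measurable_const.mul measurable_id)
      rw [lintegral_const_mul _ h4, lintegral_mul_left_eq_self k₂ (g⁻¹ * q⁻¹)]
    simp only [h3]
    exact lintegral_mul_const _ h1
  · exact ((h1.comp measurable_snd).mul
      (h2.comp ((measurable_const.mul measurable_snd.inv).mul measurable_fst))).aemeasurable

omit [TopologicalSpace P] [IsTopologicalGroup P] [LocallyCompactSpace P] [T2Space P]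
  [SecondCountableTopology P] [BorelSpace P] in
private theorem ck_supp (μ : Measure P) (k₁ k₂ : P → ℝ≥0∞) (g s : P) (h : ck μ k₁ k₂ g s ≠ 0) :
    ∃ p r, k₁ p ≠ 0 ∧ k₂ r ≠ 0 ∧ s = p * g * r := by
  by_contra hc
  apply h
  unfold ck
  have h1 : ∀ q : P, k₁ q * k₂ (g⁻¹ * q⁻¹ * s) = 0 := by
    intro q
    by_contra h2
    rw [mul_eq_zero, not_or] at h2
    exact hc ⟨q, g⁻¹ * q⁻¹ * s, h2.1, h2.2, by group⟩
  simp only [h1]
  exact lintegral_zero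

omit [T2Space P] in
private theorem ck_assoc (μ : Measure P) (hμ : Un μ) (k₂ k₃ K : P → ℝ≥0∞) (h2 : Measurable k₂)
    (h3 : Measurable k₃) (hK : Measurable K) :
    ∫⁻ t, k₂ t * ∫⁻ q, k₃ (t⁻¹ * q) * K q ∂μ ∂μ = ∫⁻ q, cv μ k₂ k₃ q * K q ∂μ := by
  have := hμ.haar
  have e1 : ∀ t : P, k₂ t * ∫⁻ q, k₃ (t⁻¹ * q) * K q ∂μ =
      ∫⁻ q, k₂ t * (k₃ (t⁻¹ * q) * K q) ∂μ := fun t =>
    (lintegral_const_mul _ ((h3.comp (measurable_const.mul measurable_id)).mul hK)).symm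
  have e2 : ∀ q : P, cv μ k₂ k₃ q * K q = ∫⁻ t, k₂ t * (k₃ (t⁻¹ * q) * K q) ∂μ := by
    intro q
    unfold cv
    rw [← lintegral_mul_const]
    · exact lintegral_congr fun t => mul_assoc _ _ _
    · exact h2.mul (h3.comp (measurable_id.inv.mul measurable_const))
  simp only [e1, e2]
  refine lintegral_lintegral_swap ?_
  exact ((h2.comp measurable_fst).mul ((h3.comp (measurable_fst.inv.mul measurable_snd)).mul
    (hK.comp measurable_snd))).aemeasurable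

omit [T2Space P] in
private theorem ck_comp (μ : Measure P) (hμ : Un μ) (k₁ k₂ k₃ k₄ : P → ℝ≥0∞) (h1 : Measurable k₁)
    (h2 : Measurable k₂) (h3 : Measurable k₃) (h4 : Measurable k₄) (g g' s : P) :
    cv μ (ck μ k₁ k₂ g) (ck μ k₃ k₄ g') s =
        ∫⁻ q, cv μ k₂ k₃ q * ck μ k₁ k₄ (g * q * g') s ∂μ := by
  have := hμ.haar
  have hR : Measurable (fun u : P => ck μ k₃ k₄ g' (u⁻¹ * s)) :=
    (ck_meas P μ hμ k₃ k₄ h3 h4 g').comp (measurable_id.inv.mul measurable_const)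
  have hcv : Measurable (cv μ k₂ k₃) := by
    rw [ck_cv]
    exact ck_meas P μ hμ k₂ k₃ h2 h3 1
  -- the left side
  have e1 : cv μ (ck μ k₁ k₂ g) (ck μ k₃ k₄ g') s =
      ∫⁻ p, k₁ p * ∫⁻ q, cv μ k₂ k₃ q * k₄ (g'⁻¹ * q⁻¹ * g⁻¹ * p⁻¹ * s) ∂μ ∂μ := by
    have e2 : cv μ (ck μ k₁ k₂ g) (ck μ k₃ k₄ g') s =
        ∫⁻ u, ∫⁻ p, k₁ p * k₂ (g⁻¹ * p⁻¹ * u) * ck μ k₃ k₄ g' (u⁻¹ * s) ∂μ ∂μ := by
      unfold cv
      refine lintegral_congr fun u => ?_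
      rw [lintegral_mul_const]
      · rfl
      · exact h1.mul (h2.comp ((measurable_const.mul measurable_id.inv).mul measurable_const))
    rw [e2, lintegral_lintegral_swap]
    · refine lintegral_congr fun p => ?_
      have e3 : ∫⁻ u, k₁ p * k₂ (g⁻¹ * p⁻¹ * u) * ck μ k₃ k₄ g' (u⁻¹ * s) ∂μ =
          k₁ p * ∫⁻ u, k₂ (g⁻¹ * p⁻¹ * u) * ck μ k₃ k₄ g' (u⁻¹ * s) ∂μ := by
        rw [← lintegral_const_mul]
        · exact lintegral_congr fun u => mul_assoc _ _ _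
        · exact (h2.comp (measurable_const.mul measurable_id)).mul hR
      rw [e3]
      congr 1
      rw [← lintegral_mul_left_eq_self (fun u => k₂ (g⁻¹ * p⁻¹ * u) * ck μ k₃ k₄ g' (u⁻¹ * s))
        (p * g)]
      have e4 : ∀ t : P, k₂ (g⁻¹ * p⁻¹ * (p * g * t)) * ck μ k₃ k₄ g' ((p * g * t)⁻¹ * s) =
          k₂ t * ∫⁻ q, k₃ (t⁻¹ * q) * k₄ (g'⁻¹ * q⁻¹ * g⁻¹ * p⁻¹ * s) ∂μ := by
        intro t
        have e5 : g⁻¹ * p⁻¹ * (p * g * t) = t := by group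
        rw [e5]
        congr 1
        unfold ck
        rw [← lintegral_mul_left_eq_self
          (fun r => k₃ r * k₄ (g'⁻¹ * r⁻¹ * ((p * g * t)⁻¹ * s))) t⁻¹]
        refine lintegral_congr fun q => ?_
        congr 2
        group
      simp only [e4]
      exact ck_assoc P μ hμ k₂ k₃ _ h2 h3
        (h4.comp ((((measurable_const.mul measurable_id.inv).mul measurable_const).mul
          measurable_const).mul measurable_const))
    · exact (((h1.comp measurable_snd).mul (h2.comp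
        ((measurable_const.mul measurable_snd.inv).mul measurable_fst))).mul
          (hR.comp measurable_fst)).aemeasurable
  rw [e1]
  have f1 : ∀ p : P, k₁ p * ∫⁻ q, cv μ k₂ k₃ q * k₄ (g'⁻¹ * q⁻¹ * g⁻¹ * p⁻¹ * s) ∂μ =
      ∫⁻ q, k₁ p * (cv μ k₂ k₃ q * k₄ (g'⁻¹ * q⁻¹ * g⁻¹ * p⁻¹ * s)) ∂μ := by
    intro p
    rw [lintegral_const_mul]
    exact hcv.mul (h4.comp ((((measurable_const.mul measurable_id.inv).mul measurable_const).mul
      measurable_const).mul measurable_const))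
  have f2 : ∀ q : P, cv μ k₂ k₃ q * ck μ k₁ k₄ (g * q * g') s =
      ∫⁻ p, k₁ p * (cv μ k₂ k₃ q * k₄ (g'⁻¹ * q⁻¹ * g⁻¹ * p⁻¹ * s)) ∂μ := by
    intro q
    unfold ck
    rw [← lintegral_const_mul]
    · refine lintegral_congr fun p => ?_
      have f3 : (g * q * g')⁻¹ * p⁻¹ * s = g'⁻¹ * q⁻¹ * g⁻¹ * p⁻¹ * s := by group
      rw [f3]
      ring
    · exact h1.mul (h4.comp ((measurable_const.mul measurable_id.inv).mul measurable_const))
  simp only [f1, f2]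
  refine lintegral_lintegral_swap ?_
  exact ((h1.comp measurable_fst).mul ((hcv.comp measurable_snd).mul
    (h4.comp ((((measurable_const.mul measurable_snd.inv).mul measurable_const).mul
      measurable_fst.inv).mul measurable_const)))).aemeasurable

theorem tck : S_ck P := by
  intro μ hμ
  have := hμ.haar
  have := hμ.right
  have := hμ.inv
  refine ⟨fun k₁ k₂ h1 h2 g => ck_meas P μ hμ k₁ k₂ h1 h2 g, ?_,
    fun k₁ k₂ h1 h2 g => ck_int P μ hμ k₁ k₂ h1 h2 g, fun k₁ k₂ g s h => ck_supp P μ k₁ k₂ g s h,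
    ?_, ?_, ?_, ?_, ?_,
    fun k₁ k₂ k₃ k₄ h1 h2 h3 h4 g g' s => ck_comp P μ hμ k₁ k₂ k₃ k₄ h1 h2 h3 h4 g g' s,
    ?_, ?_, ?_⟩
  · intro k₁ k₂ k₁' k₂' h1 h2 g s
    exact lintegral_mono fun q => mul_le_mul' (h1 q) (h2 _)
  · intro k₁ k₂ C h1 h2 g s
    calc ck μ k₁ k₂ g s ≤ ∫⁻ q, k₁ q * C ∂μ := lintegral_mono fun q => mul_le_mul' le_rfl (h2 _)
      _ = (∫⁻ q, k₁ q ∂μ) * C := lintegral_mul_const _ h1
  · intro k₁ k₂ _ _ g s
    unfold ck
    rw [← lintegral_mul_left_eq_self (fun q => k₁ q * k₂ (g⁻¹ * q⁻¹ * s⁻¹)) s⁻¹,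
      ← lintegral_mul_right_eq_self (fun q => k₁ (s⁻¹ * q) * k₂ (g⁻¹ * (s⁻¹ * q)⁻¹ * s⁻¹)) g⁻¹]
    refine lintegral_congr fun p => ?_
    have e1 : s⁻¹ * (p * g⁻¹) = (g⁻¹⁻¹ * p⁻¹ * s)⁻¹ := by group
    have e2 : g⁻¹ * (s⁻¹ * (p * g⁻¹))⁻¹ * s⁻¹ = p⁻¹ := by group
    rw [e2, e1, mul_comm]
  · intro k₁ k₂ _ _ g h s
    unfold ck
    rw [← lintegral_mul_left_eq_self (fun q => k₁ q * k₂ (g⁻¹ * q⁻¹ * (h * s))) h]
    refine lintegral_congr fun q => ?_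
    have e1 : g⁻¹ * (h * q)⁻¹ * (h * s) = g⁻¹ * q⁻¹ * s := by group
    rw [e1]
  · intro k₁ k₂ g h s
    unfold ck
    refine lintegral_congr fun q => ?_
    rw [← mul_assoc (g⁻¹ * q⁻¹) s h]
  · intro k₁ k₂ _ _ g h₁ h₂ s
    unfold ck
    rw [← lintegral_mul_right_eq_self (fun q => k₁ q * k₂ ((h₁ * g * h₂)⁻¹ * q⁻¹ * s)) h₁⁻¹]
    refine lintegral_congr fun q => ?_
    have e1 : (h₁ * g * h₂)⁻¹ * (q * h₁⁻¹)⁻¹ * s = h₂⁻¹ * (g⁻¹ * q⁻¹ * s) := by group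
    rw [e1]
  · intro k₁ k₂ h1 h2
    rw [ck_cv]
    exact ck_int P μ hμ k₁ k₂ h1 h2 1
  · intro k₁ k₂ s h
    rw [ck_cv] at h
    obtain ⟨p, r, hp, hr, e⟩ := ck_supp P μ k₁ k₂ 1 s h
    exact ⟨p, r, hp, hr, by rw [e, mul_one]⟩
  · intro k₁ k₂ h1 h2
    rw [ck_cv]
    exact ck_meas P μ hμ k₁ k₂ h1 h2 1

end

end Pool.Agent.MPEF.U
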