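import Pool.Agent.Lib.MP_ef3f0f_gt.U.Ck.Spec

set_option autoImplicit false

/-!
# MP_ef3f0f_gt, Theorem U, Part C: `S_ckU` (merging, upper bound)
-/

namespace Pool.Agent.MPEF.U

open MeasureTheory Topology
open scoped ENNReal Pointwise

variable (P : Type) [Group P] [TopologicalSpace P] [IsTopologicalGroup P]
  [LocallyCompactSpace P] [T2Space P] [SecondCountableTopology P] [MeasurableSpace P]
  [BorelSpace P]

theorem tckU : S_ck P → S_ckU P := by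
  intro hck μ hμ k₁ k₂ k₃ k₄ κ₁ κ₄ h1 h2 h3 h4 g g' g'' hyp s
  obtain ⟨-, c2, -, -, -, -, -, -, c9, c10, c11, c12, c13⟩ := hck μ hμ
  rw [c10 k₁ k₂ k₃ k₄ h1 h2 h3 h4 g g' s, ← c11 k₂ k₃ h2 h3,
    ← lintegral_mul_const _ (c13 k₂ k₃ h2 h3)]
  refine lintegral_mono fun q => ?_
  by_cases hq : cv μ k₂ k₃ q = 0
  · simp [hq]
  obtain ⟨p, r, hp, hr, rfl⟩ := c12 k₂ k₃ q hq
  obtain ⟨h₁, h₂, e, w1, w2⟩ := hyp p r hp hr
  refine mul_le_mul' le_rfl ?_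
  rw [e, c9 k₁ k₄ h1 h4 g'' h₁ h₂ s]
  exact c2 _ _ _ _ w1 w2 g'' s

end Pool.Agent.MPEF.U
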